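import Pool.Agent.Helper95.HV.Stmts
import Pool.Agent.Helper47.LN.NB

/-!
# Row NBZ: the number of electrons near the nuclei and the field energy, heavy nuclei
-/

set_option autoImplicit false

namespace Pool.Agent.Helper21.HV

open MeasureTheory Filter Topology
open Pool.Agent.Helper95.PW Pool.Agent.Helper95.LN Pool.Agent.Helper95.HV
open Pool.Agent.Helper47.LN

theorem NBZ (h1 : ST_GRD) (h2 : ST_PHA) (_h3 : ST_PHB) (h4 : ST_PHC) (h5 : ST_DEX) :
    ST_NBZ := by
  intro d hd _hd1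
  have hkap : 0 < kap := h4.2.1
  have hb : 0 < d / 8 := by positivity
  have hph : ContDiff ℝ (⊤ : ℕ∞) (ph (d / 8)) := (h2 (d / 8) hb).1
  have hr : (0 : ℝ) ≤ 13 / 8 * d := by positivity
  have hR : 13 / 8 * d < 19 / 10 * d := by nlinarith
  obtain ⟨Q, hQ⟩ : ∃ Q, Q = ∫ w, ∑ m, pd m (nbF (13 / 8 * d) (19 / 10 * d)) w ^ 2 := ⟨_, rfl⟩
  have hQ0 : 0 ≤ Q := by
    rw [hQ]
    exact integral_nonneg fun w => Finset.sum_nonneg fun m _ => sq_nonneg _
  obtain ⟨τ, hτ⟩ : ∃ τ, τ = 2 * (Q + 1) / kap := ⟨_, rfl⟩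
  have hτ0 : 0 < τ := by
    rw [hτ]
    positivity
  refine ⟨9 / 2 + τ, by positivity, ?_⟩
  intro z n M X Z x hD
  have hz1 : 1 ≤ z := hD.z1
  have hX : Sep X d := hD.sep
  have hZz : ∀ j, Z j ≤ z := hD.le
  obtain ⟨hS, _⟩ := h5 (d / 8) n M X Z x hb
  have hP := nb_pt_cd hph X Z x
  let B : Fin M → Set R3 := fun i => {w | nr (w - X i) < 2 * d}
  have hB : ∀ i, MeasurableSet (B i) := fun i =>
    (isOpen_lt (nb_nr_cont.comp (continuous_id.sub continuous_const))
      continuous_const).measurableSet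
  have hc0 : ∀ i, 0 ≤ cnt X (3 / 2 * d) x i := by
    intro i
    unfold cnt
    refine Finset.sum_nonneg fun k _ => ?_
    split_ifs
    · exact zero_le_one
    · exact le_rfl
  have key : ∀ i, cnt X (3 / 2 * d) x i ^ 2 ≤ 2 * (z + 1 / 2) ^ 2 +
      τ / kap * ∫ w, (B i).indicator (fun w => ∑ m, pd m (Pt (d / 8) X Z x) w ^ 2) w := by
    intro i
    have hF : ContDiff ℝ (⊤ : ℕ∞) (fun w => nbF (13 / 8 * d) (19 / 10 * d) (w - X i)) :=
      (nbF_cd _ _).comp (contDiff_id.sub contDiff_const)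
    have hFc := nbF_cs hr hR (X i)
    have hQi : ∫ w, ∑ m, pd m (fun w => nbF (13 / 8 * d) (19 / 10 * d) (w - X i)) w ^ 2 = Q := by
      rw [hQ, ← integral_sub_right_eq_self
        (fun w => ∑ m, pd m (nbF (13 / 8 * d) (19 / 10 * d)) w ^ 2) (X i)]
      simp only [nb_pd_sub]
    have hz0 : ∀ m, ∀ w ∉ B i,
        pd m (fun w => nbF (13 / 8 * d) (19 / 10 * d) (w - X i)) w = 0 := by
      intro m w hw
      rw [nb_pd_sub]
      have h6 : 2 * d ≤ nr (w - X i) := not_lt.1 hw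
      exact nb_pd_zero hr hR m (by nlinarith)
    have ht : 0 < τ / (cnt X (3 / 2 * d) x i + 1) := by
      have := hc0 i
      positivity
    have h7 := nb_cs hP hF hFc (hB i) hz0 hS ht
    rw [hQi] at h7
    exact nb_alg hkap (hc0 i) hQ0 hτ ((nb_low h1 h4 hd hph hX hZz x i).trans h7)
  have hsum : ∑ i, ∫ w, (B i).indicator (fun w => ∑ m, pd m (Pt (d / 8) X Z x) w ^ 2) w ≤
      kap * Dn (d / 8) X Z x := by
    have e1 : kap * Dn (d / 8) X Z x = ∫ w, ∑ m, pd m (Pt (d / 8) X Z x) w ^ 2 := by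
      unfold Dn
      rw [← mul_assoc, mul_one_div_cancel hkap.ne', one_mul]
    rw [e1, ← integral_finsetSum _ fun i _ => hS.indicator (hB i)]
    refine integral_mono (integrable_finsetSum _ fun i _ => hS.indicator (hB i)) hS fun w => ?_
    show ∑ i, (B i).indicator (fun w => ∑ m, pd m (Pt (d / 8) X Z x) w ^ 2) w ≤
      ∑ m, pd m (Pt (d / 8) X Z x) w ^ 2
    have hnn : 0 ≤ ∑ m, pd m (Pt (d / 8) X Z x) w ^ 2 := Finset.sum_nonneg fun m _ => sq_nonneg _
    by_cases hw : ∃ i, w ∈ B i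
    · obtain ⟨i, hi⟩ := hw
      rw [Finset.sum_eq_single i ?_ (fun h => absurd (Finset.mem_univ i) h)]
      · rw [Set.indicator_of_mem hi]
      · intro j _ hj
        refine Set.indicator_of_notMem (fun hjw => ?_) _
        have g1 : nr (w - X i) < 2 * d := hi
        have g2 : nr (w - X j) < 2 * d := hjw
        have g3 := hX j i hj
        have g4 := nb_tri (X j) w (X i)
        rw [nb_nr_comm (X j) w] at g4
        linarith
    · rw [Finset.sum_eq_zero fun i _ => Set.indicator_of_notMem (fun h => hw ⟨i, h⟩) _]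
      exact hnn
  have hD0 : 0 ≤ Dn (d / 8) X Z x := by
    unfold Dn
    exact mul_nonneg (by positivity)
      (integral_nonneg fun w => Finset.sum_nonneg fun m _ => sq_nonneg _)
  calc ∑ i, cnt X (3 / 2 * d) x i ^ 2
      ≤ ∑ i, (2 * (z + 1 / 2) ^ 2 +
        τ / kap * ∫ w, (B i).indicator (fun w => ∑ m, pd m (Pt (d / 8) X Z x) w ^ 2) w) :=
        Finset.sum_le_sum fun i _ => key i
    _ = 2 * (z + 1 / 2) ^ 2 * M + τ / kap *
        ∑ i, ∫ w, (B i).indicator (fun w => ∑ m, pd m (Pt (d / 8) X Z x) w ^ 2) w := by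
        rw [Finset.sum_add_distrib, Finset.mul_sum, Finset.sum_const, Finset.card_univ,
          Fintype.card_fin, nsmul_eq_mul, mul_comm (M : ℝ)]
    _ ≤ 2 * (z + 1 / 2) ^ 2 * M + τ / kap * (kap * Dn (d / 8) X Z x) := by
        have := mul_le_mul_of_nonneg_left hsum (show 0 ≤ τ / kap by positivity)
        linarith
    _ = 2 * (z + 1 / 2) ^ 2 * M + τ * Dn (d / 8) X Z x := by
        field_simp
    _ ≤ 9 / 2 * (z ^ 2 * M) + τ * Dn (d / 8) X Z x := by
        have hM : (0 : ℝ) ≤ M := Nat.cast_nonneg M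
        have g1 : 2 * (z + 1 / 2) ^ 2 ≤ 9 / 2 * z ^ 2 := by nlinarith
        have g2 := mul_le_mul_of_nonneg_right g1 hM
        linarith
    _ ≤ (9 / 2 + τ) * (z ^ 2 * M + Dn (d / 8) X Z x) := by
        have hM : (0 : ℝ) ≤ z ^ 2 * M := by positivity
        have g1 : 0 ≤ τ * (z ^ 2 * M) := by positivity
        have g2 : 0 ≤ 9 / 2 * Dn (d / 8) X Z x := by positivity
        nlinarith

end Pool.Agent.Helper21.HV
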