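import Pool.Agent.Helper71.HV.Sub
import Pool.Agent.Helper53.LN.VIR

/-! # HV: the part VL of the row V2R -/

set_option autoImplicit false

namespace Pool.Agent.Helper21.HV

open MeasureTheory Filter Pool.Agent.Helper95.PW Pool.Agent.Helper95.LN Pool.Agent.Helper95.CF
  Pool.Agent.Helper95.HV Pool.Agent.Helper53.LN

theorem vl_pd (g : R3 → ℝ) (i : Fin 3) : pd i (fun y => -g y) = fun y => -pd i g y := by
  funext y
  unfold pd
  rw [fderiv_fun_neg]
  rfl

theorem vl_ea {n : ℕ} (g : R3 → ℝ) (x : Cf n) (k l : Fin n) :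
    ea (fun y => -g y) x k l = -ea g x k l := by
  unfold ea
  rw [← neg_div, ← Finset.sum_neg_distrib]
  congr 1
  refine Finset.sum_congr rfl fun m _ => ?_
  rw [vl_pd]
  ring

theorem vl_na {n M : ℕ} (X : Fin M → R3) (g : R3 → ℝ) (x : Cf n) (k : Fin n) (j : Fin M) :
    na X (fun y => -g y) x k j = -na X g x k j := by
  unfold na
  rw [← neg_div, ← Finset.sum_neg_distrib]
  congr 1
  refine Finset.sum_congr rfl fun m _ => ?_
  rw [vl_pd]
  ring

theorem vl_vir {n M : ℕ} (X : Fin M → R3) (Z : Fin M → ℝ) (g : R3 → ℝ) (x : Cf n) :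
    Vir X Z (fun y => -g y) x = -Vir X Z g x := by
  rw [VIR_vir, VIR_vir]
  simp only [vl_ea, vl_na]
  rw [← mul_neg, ← Finset.sum_neg_distrib]
  congr 1
  refine Finset.sum_congr rfl fun k _ => ?_
  simp only [mul_neg, Finset.sum_neg_distrib]
  ring

/-- the own nucleus -/
theorem vl_b3 {n M : ℕ} {X : Fin M → R3} {z d A : ℝ} (hz : 0 ≤ z) (hd : 0 < d) (hA : 1 ≤ A)
    (hS : Sep X d) {g : R3 → ℝ} {Z : Fin M → ℝ} (hZ0 : ∀ j, 0 ≤ Z j) (hZ : ∀ j, Z j ≤ z)
    (h1 : ∀ i y, |pd i g y| ≤ A)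
    (hin : ∀ j y, nr (y - X j) < d / 8 → ∀ i, pd i g y = 0) (x : Cf n) :
    ∑ i, ∑ k, sw X (3 / 2 * d) x i k * (Z i * na X g x k i) ≤
      3 * A * (64 / d ^ 2) * (z * n) := by
  have key : ∀ i k, sw X (3 / 2 * d) x i k * (Z i * na X g x k i) ≤
      3 * A * (64 / d ^ 2) * z * sw X (3 / 2 * d) x i k := by
    intro i k
    have s0 := sw_nonneg X (3 / 2 * d) x i k
    have hc : 0 ≤ 3 * A * (64 / d ^ 2) := by positivity
    have h5 : Z i * na X g x k i ≤ 3 * A * (64 / d ^ 2) * z := by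
      by_cases h2 : nr (x k - X i) < d / 8
      · have h3 : na X g x k i = 0 := by
          unfold na
          simp [hin i (x k) h2]
        rw [h3, mul_zero]
        positivity
      · push Not at h2
        have hr : 0 < nr (x k - X i) := lt_of_lt_of_le (by positivity) h2
        have h3 : na X g x k i ≤ 3 * A * (1 / nr (x k - X i) ^ 2) := by
          unfold na
          rw [div_le_iff₀ (by positivity)]
          have hm : ∀ m, pd m g (x k) * (x k m - X i m) ≤ A * nr (x k - X i) := by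
            intro m
            refine le_trans (le_abs_self _) ?_
            rw [abs_mul]
            refine mul_le_mul (h1 _ _) ?_ (abs_nonneg _) (by linarith)
            exact VIR_comp (x k - X i) m
          have e1 : 3 * A * (1 / nr (x k - X i) ^ 2) * nr (x k - X i) ^ 3 =
              3 * A * nr (x k - X i) := by
            field_simp
          rw [e1, Fin.sum_univ_three]
          linarith [hm 0, hm 1, hm 2]
        have h4 : 1 / nr (x k - X i) ^ 2 ≤ 64 / d ^ 2 := by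
          rw [div_le_div_iff₀ (by positivity) (by positivity)]
          nlinarith
        have h6 : na X g x k i ≤ 3 * A * (64 / d ^ 2) :=
          h3.trans (mul_le_mul_of_nonneg_left h4 (by linarith))
        calc Z i * na X g x k i ≤ Z i * (3 * A * (64 / d ^ 2)) :=
              mul_le_mul_of_nonneg_left h6 (hZ0 i)
          _ ≤ z * (3 * A * (64 / d ^ 2)) := mul_le_mul_of_nonneg_right (hZ i) hc
          _ = _ := by ring
    have := mul_le_mul_of_nonneg_left h5 s0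
    linarith
  have h6 : ∑ i, ∑ k, sw X (3 / 2 * d) x i k * (Z i * na X g x k i) ≤
      ∑ i, ∑ k, 3 * A * (64 / d ^ 2) * z * sw X (3 / 2 * d) x i k :=
    Finset.sum_le_sum fun i _ => Finset.sum_le_sum fun k _ => key i k
  refine h6.trans ?_
  rw [Finset.sum_comm]
  have h7 : ∀ k, ∑ i, 3 * A * (64 / d ^ 2) * z * sw X (3 / 2 * d) x i k ≤
      3 * A * (64 / d ^ 2) * z := by
    intro k
    rw [← Finset.mul_sum]
    have h8 : 0 ≤ 3 * A * (64 / d ^ 2) * z := by positivity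
    exact mul_le_of_le_one_right h8 (VIR_le1 hd hS x k)
  calc ∑ k, ∑ i, 3 * A * (64 / d ^ 2) * z * sw X (3 / 2 * d) x i k
      ≤ ∑ _k : Fin n, 3 * A * (64 / d ^ 2) * z := Finset.sum_le_sum fun k _ => h7 k
    _ = 3 * A * (64 / d ^ 2) * (z * n) := by
      rw [Finset.sum_const, Finset.card_univ, Fintype.card_fin, nsmul_eq_mul]
      ring

theorem VL (h2 : ST_NBZ) (h3 : ST_FFZ) (h4 : ST_KK) : Pool.Agent.Helper71.HV.ST_VL := by
  intro d hd hd1 A0 hA0
  obtain ⟨C2, hC2, k2⟩ := h2 d hd hd1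
  obtain ⟨C3, hC3, k3⟩ := h3 d hd hd1
  obtain ⟨A, hAe⟩ : ∃ A : ℝ, A = 3 * A0 := ⟨_, rfl⟩
  have hA : 1 ≤ A := by linarith
  have hA' : (0 : ℝ) ≤ A := by linarith
  obtain ⟨P, hP⟩ : ∃ P : ℝ, P = 1 / 2 * (A + A * (16 / d) * C2 + 3 / 2 * A * (C3 + C2) +
    3 * A * (64 / d ^ 2)) := ⟨_, rfl⟩
  have hP0 : 0 < P := by
    rw [hP]
    positivity
  refine ⟨P, hP0, ?_⟩
  intro z n M X Z g x hDat hg hout hA1 hA2 hin hD
  have hS := hDat.sep
  have hZ0 : ∀ j, 0 ≤ Z j := hDat.nuc.1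
  have hz : 0 ≤ z := zero_le_one.trans hDat.z1
  have q2 := k2 z n M X Z x hDat
  obtain ⟨e, he, q3⟩ := k3 z n M X Z x hDat
  have hg' : ContDiff ℝ (⊤ : ℕ∞) (fun y => -g y) := hg.neg
  have hout' : ∀ i y, (∀ j, d ≤ nr (y - X j)) → pd i (fun y => -g y) y = 0 := by
    intro i y hy
    rw [vl_pd]
    simp [hout i y hy]
  have hA1' : ∀ i y, |pd i (fun y => -g y) y| ≤ A := by
    intro i y
    rw [vl_pd]
    show |-pd i g y| ≤ A
    rw [abs_neg]
    linarith [hA1 i y]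
  have hin' : ∀ j y, nr (y - X j) < d / 8 → ∀ i, pd i (fun y => -g y) y = 0 := by
    intro j y hy i
    rw [vl_pd]
    simp [hin j y hy i]
  have hH' : ∀ (y : R3) (ξ : Fin 3 → ℝ),
      -(A * ∑ i, ξ i ^ 2) ≤ ∑ i, ∑ l, pd i (pd l (fun y => -g y)) y * ξ i * ξ l := by
    intro y ξ
    have e1 : ∀ i l, -(A0 * ((ξ i ^ 2 + ξ l ^ 2) / 2)) ≤
        pd i (pd l (fun y => -g y)) y * ξ i * ξ l := by
      intro i l
      rw [vl_pd, vl_pd]
      show -(A0 * ((ξ i ^ 2 + ξ l ^ 2) / 2)) ≤ -pd i (pd l g) y * ξ i * ξ l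
      have g1 : |-pd i (pd l g) y * ξ i * ξ l| ≤ A0 * ((ξ i ^ 2 + ξ l ^ 2) / 2) := by
        rw [mul_assoc, abs_mul, abs_neg]
        refine mul_le_mul (hA2 i l y) ?_ (abs_nonneg _) (by linarith)
        rw [abs_mul]
        nlinarith [sq_nonneg (|ξ i| - |ξ l|), sq_abs (ξ i), sq_abs (ξ l)]
      exact (abs_le.1 g1).1
    have e2 := Finset.sum_le_sum fun i (_ : i ∈ Finset.univ) =>
      Finset.sum_le_sum fun l (_ : l ∈ Finset.univ) => e1 i l
    refine le_trans (le_of_eq ?_) e2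
    rw [hAe]
    simp only [Fin.sum_univ_three]
    ring
  have hN10 : 0 ≤ ∑ k, near1 X d (x k) := by
    refine Finset.sum_nonneg fun k _ => ?_
    unfold near1
    refine Finset.sum_nonneg fun j _ => ?_
    split_ifs
    · exact div_nonneg zero_le_one (VIR_nr0 _)
    · exact le_rfl
  have hR : 0 ≤ Rem (d / 8) x := by
    unfold Rem
    refine Finset.sum_nonneg fun k _ => Finset.sum_nonneg fun l _ => ?_
    split_ifs with h
    · have := (h4 (d / 8) (x k - x l) (by positivity)).2.1 (hD.1 k l h.ne)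
      linarith
    · exact le_rfl
  have hD0 : 0 ≤ Dn (d / 8) X Z x := VIR_Dn _ _ _ _
  have hM0 : 0 ≤ z ^ 2 * (M : ℝ) := by positivity
  have hzN1 : 0 ≤ z * ∑ k, near1 X d (x k) := mul_nonneg hz hN10
  have hzn : 0 ≤ z * (n : ℝ) := mul_nonneg hz (Nat.cast_nonneg n)
  obtain ⟨Y, hY⟩ : ∃ Y : ℝ, Y = Loc d z X Z x + z * n := ⟨_, rfl⟩
  have hL : Loc d z X Z x = z ^ 2 * M + Dn (d / 8) X Z x + Rem (d / 8) x +
    z * ∑ k, near1 X d (x k) := rfl
  rw [← hY]
  rw [hL] at hY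
  have r4 : z * n ≤ Y := by linarith
  have r6 : Rem (d / 8) x ≤ Y := by linarith
  have r7 : z ^ 2 * M + Dn (d / 8) X Z x ≤ Y := by linarith
  have r8 : ∑ i, cnt X (3 / 2 * d) x i ^ 2 ≤ C2 * Y :=
    q2.trans (mul_le_mul_of_nonneg_left r7 hC2.le)
  have r9 : ∑ i, e i ^ 2 ≤ C3 * Y := q3.trans (mul_le_mul_of_nonneg_left r7 hC3.le)
  have b1 := VIR_b1 h4 hd hA hS hg' hH' hD
  have b2 := VIR_b2 hd hA hS Z hout' hA1' x he
  have b3 := vl_b3 hz hd hA hS hZ0 hDat.le hA1' hin' x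
  have m1 := mul_le_mul_of_nonneg_left r6 hA'
  have m2 := mul_le_mul_of_nonneg_left r8 (by positivity : 0 ≤ A * (16 / d))
  have m3 := mul_le_mul_of_nonneg_left (add_le_add r9 r8) (by positivity : 0 ≤ 3 / 2 * A)
  have m4 := mul_le_mul_of_nonneg_left r4 (by positivity : 0 ≤ 3 * A * (64 / d ^ 2))
  have hv := vl_vir X Z g x
  rw [VIR_id hd hS Z hout' x] at hv
  have e1 : P * Y = 1 / 2 * (A * Y + A * (16 / d) * (C2 * Y) +
      3 / 2 * A * (C3 * Y + C2 * Y) + 3 * A * (64 / d ^ 2) * Y) := by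
    rw [hP]
    ring
  rw [e1]
  linarith

end Pool.Agent.Helper21.HV
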